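import Mathlib

/-!
# Coordinates on the circle, flips of the arcs `(0, ℓ)`, density of orbits of rotations
-/

set_option autoImplicit false

namespace Pool.Agent.N230.FL

open Equiv Topology

/-- the circle `ℝ/ℤ` -/
abbrev S : Type := AddCircle (1 : ℝ)

/-- the representative in `[0, 1)` -/
noncomputable def cc (x : S) : ℝ := (AddCircle.equivIco 1 0 x : ℝ)

theorem cc_nonneg (x : S) : 0 ≤ cc x := (AddCircle.equivIco 1 0 x).2.1

theorem cc_lt (x : S) : cc x < 1 := by
  have := (AddCircle.equivIco 1 0 x).2.2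
  simpa [cc] using this

@[simp] theorem coe_cc (x : S) : ((cc x : ℝ) : S) = x := AddCircle.coe_equivIco

theorem cc_eq {x : S} {t : ℝ} (h : (t : S) = x) (h0 : 0 ≤ t) (h1 : t < 1) : cc x = t := by
  have h2 : AddCircle.equivIco 1 0 x = ⟨t, h0, by simpa using h1⟩ := by
    rw [← h]
    apply (AddCircle.equivIco (1 : ℝ) 0).symm.injective
    rw [Equiv.symm_apply_apply]
    rfl
  rw [cc, h2]

theorem cc_coe {t : ℝ} (h0 : 0 ≤ t) (h1 : t < 1) : cc (t : S) = t := cc_eq rfl h0 h1

theorem cc_inj {x y : S} (h : cc x = cc y) : x = y := by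
  rw [← coe_cc x, ← coe_cc y, h]

@[simp] theorem cc_zero : cc 0 = 0 := by
  have := cc_coe (t := 0) le_rfl one_pos
  simpa using this

theorem cc_pos {x : S} (h : x ≠ 0) : 0 < cc x := by
  rcases (cc_nonneg x).lt_or_eq with h1 | h1
  · exact h1
  · exact absurd (cc_inj (by rw [← h1, cc_zero])) h

theorem coe_one : ((1 : ℝ) : S) = 0 := AddCircle.coe_period 1

theorem coe_add_one (t : ℝ) : ((t + 1 : ℝ) : S) = (t : S) := by
  rw [AddCircle.coe_add, coe_one, add_zero]

theorem coe_sub_one (t : ℝ) : ((t - 1 : ℝ) : S) = (t : S) := by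
  rw [AddCircle.coe_sub, coe_one, sub_zero]

/-- coordinate of `x - ℓ` when `cc x < ℓ` -/
theorem cc_sub_of_lt {x : S} {l : ℝ} (h : cc x < l) (h1 : l ≤ 1) :
    cc (x - (l : S)) = cc x - l + 1 := by
  apply cc_eq
  · rw [coe_add_one, AddCircle.coe_sub, coe_cc]
  · linarith [cc_nonneg x]
  · linarith

theorem cc_sub_of_le {x : S} {l : ℝ} (h : l ≤ cc x) (h1 : 0 ≤ l) :
    cc (x - (l : S)) = cc x - l := by
  apply cc_eq
  · rw [AddCircle.coe_sub, coe_cc]
  · linarith
  · linarith [cc_lt x]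

theorem cc_neg {x : S} (h : x ≠ 0) : cc (-x) = 1 - cc x := by
  apply cc_eq
  · rw [AddCircle.coe_sub, coe_one, coe_cc, zero_sub]
  · linarith [cc_lt x]
  · linarith [cc_pos h]

theorem cc_refl {x : S} {l : ℝ} (h0 : 0 < cc x) (h : cc x < l) (h1 : l ≤ 1) :
    cc ((l : S) - x) = l - cc x := by
  apply cc_eq
  · rw [AddCircle.coe_sub, coe_cc]
  · linarith
  · linarith

/-- the map which flips the arc `(0, l)` -/
noncomputable def flipFun (l : ℝ) (x : S) : S :=
  if 0 < cc x ∧ cc x < l ∧ l ≤ 1 then (l : S) - x else x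

theorem flipFun_invol (l : ℝ) : Function.Involutive (flipFun l) := by
  intro x
  by_cases h : 0 < cc x ∧ cc x < l ∧ l ≤ 1
  · have h2 : flipFun l x = (l : S) - x := by rw [flipFun, if_pos h]
    have h3 : 0 < cc ((l : S) - x) ∧ cc ((l : S) - x) < l ∧ l ≤ 1 := by
      rw [cc_refl h.1 h.2.1 h.2.2]
      exact ⟨by linarith [h.2.1], by linarith [h.1], h.2.2⟩
    rw [h2, flipFun, if_pos h3]
    abel
  · have h2 : flipFun l x = x := by rw [flipFun, if_neg h]
    rw [h2, h2]

/-- the flip of the arc `(0, l)` -/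
noncomputable def flip (l : ℝ) : Perm S := (flipFun_invol l).toPerm

theorem flip_in {l : ℝ} {x : S} (h0 : 0 < cc x) (h : cc x < l) (h1 : l ≤ 1) :
    flip l x = (l : S) - x := by
  show flipFun l x = _
  rw [flipFun, if_pos ⟨h0, h, h1⟩]

theorem flip_out {l : ℝ} {x : S} (h : l ≤ cc x ∨ x = 0) : flip l x = x := by
  show flipFun l x = _
  rw [flipFun, if_neg]
  rintro ⟨h0, h2, _⟩
  rcases h with h | h
  · linarith
  · rw [h, cc_zero] at h0
    exact lt_irrefl _ h0

theorem flip_mul_self (l : ℝ) : flip l * flip l = 1 := by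
  ext x
  exact flipFun_invol l x

/-- the rotation by `a` -/
noncomputable def rot (a : S) : Perm S := Equiv.addRight a

@[simp] theorem rot_apply (a x : S) : rot a x = x + a := rfl

theorem rot_mul (a b : S) : rot a * rot b = rot (a + b) := by
  ext x
  show x + b + a = x + (a + b)
  abel

theorem rot_inv (a : S) : (rot a)⁻¹ = rot (-a) := by
  rw [inv_eq_iff_mul_eq_one, rot_mul, add_neg_cancel]
  ext x
  simp

theorem rot_inv_apply (a x : S) : (rot a)⁻¹ x = x - a := by
  rw [rot_inv, rot_apply, sub_eq_add_neg]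

/-- the reflection `x ↦ -x` -/
noncomputable def refl : Perm S := Equiv.neg S

@[simp] theorem refl_apply (x : S) : refl x = -x := rfl

/-! ### density -/

theorem exists_ge {β : ℝ} (hβ : Irrational β) (x : S) {u v : ℝ} (h0 : 0 ≤ u) (huv : u < v)
    (h1 : v ≤ 1) (K : ℕ) : ∃ n : ℕ, K ≤ n ∧ u < cc (x + n • (β : S)) ∧ cc (x + n • (β : S)) < v := by
  have hd : DenseRange fun n : ℤ => n • (β : S) := by
    have := (AddCircle.denseRange_zsmul_coe_iff (a := β) (p := 1)).2 (by simpa using hβ)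
    exact this
  have hd2 : DenseRange fun n : ℕ => n • (β : S) := denseRange_zsmul_iff_nsmul.1 hd
  -- the open arc
  have ho : IsOpen ((fun t : ℝ => (t : S)) '' Set.Ioo u v) :=
    QuotientAddGroup.isOpenMap_coe _ isOpen_Ioo
  have ho2 : IsOpen {y : S | x + K • (β : S) + y ∈ (fun t : ℝ => (t : S)) '' Set.Ioo u v} :=
    ho.preimage (continuous_const.add continuous_id)
  obtain ⟨n, hn⟩ := hd2.exists_mem_open ho2 (by
    obtain ⟨t, ht⟩ := exists_between huv
    refine ⟨(t : S) - (x + K • (β : S)), t, ht, ?_⟩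
    show (t : S) = _
    abel)
  obtain ⟨t, ht, hxt⟩ := hn
  have h2 : cc (x + (K + n) • (β : S)) = t := by
    apply cc_eq
    · rw [add_nsmul, ← add_assoc]
      exact hxt
    · linarith [ht.1]
    · linarith [ht.2]
  exact ⟨K + n, Nat.le_add_right _ _, by rw [h2]; exact ht.1, by rw [h2]; exact ht.2⟩

/-- arbitrarily large times -/
theorem exists_ge_int {β : ℝ} (hβ : Irrational β) (x : S) {u v : ℝ} (h0 : 0 ≤ u) (huv : u < v)
    (h1 : v ≤ 1) (K : ℤ) : ∃ n : ℤ, K ≤ n ∧ u < cc (x + n • (β : S)) ∧ cc (x + n • (β : S)) < v := by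
  obtain ⟨n, hn, h⟩ := exists_ge hβ x h0 huv h1 K.toNat
  refine ⟨n, by omega, ?_⟩
  rw [natCast_zsmul]
  exact h

/-- arbitrarily small times -/
theorem exists_le_int {β : ℝ} (hβ : Irrational β) (x : S) {u v : ℝ} (h0 : 0 ≤ u) (huv : u < v)
    (h1 : v ≤ 1) (K : ℤ) : ∃ n : ℤ, n ≤ K ∧ u < cc (x + n • (β : S)) ∧ cc (x + n • (β : S)) < v := by
  obtain ⟨n, hn, h⟩ := exists_ge_int hβ.neg x h0 huv h1 (-K)
  refine ⟨-n, by omega, ?_⟩
  have : (-n) • (β : S) = n • ((-β : ℝ) : S) := by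
    rw [AddCircle.coe_neg, smul_neg, neg_smul]
  rw [this]
  exact h

end Pool.Agent.N230.FL
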