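import Pool.Agent.N230.FL.Basic

/-!
# The restricted rotations of the arc `(0, M)` as products of three flips; orbits of near lifts
-/

set_option autoImplicit false

set_option linter.unusedSectionVars false

namespace Pool.Agent.N230.FL

open Equiv Topology Sum

/-- the restricted rotation of the arc `(0, M)` by `m`, as a product of three flips -/
noncomputable def sw (M m : ℝ) : Perm S :=
  flip M * (flip (M - m) * (rot ((M - m : ℝ) : S) * flip m * (rot ((M - m : ℝ) : S))⁻¹))

/-- the last factor of `sw` -/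
theorem third_apply (c : S) (m : ℝ) (z : S) :
    (rot c * flip m * (rot c)⁻¹) z = flip m (z - c) + c := by
  rw [Perm.mul_apply, Perm.mul_apply, rot_inv_apply, rot_apply]

section sw

variable {M m : ℝ} (hm : 0 < m) (hmM : m < M) (hM : M ≤ 1)
include hm hmM hM

theorem sw_lt {z : S} (h0 : 0 < cc z) (h : cc z < M - m) : sw M m z = z + (m : S) := by
  have h1 : (rot ((M - m : ℝ) : S) * flip m * (rot ((M - m : ℝ) : S))⁻¹) z = z := by
    rw [third_apply, flip_out]
    · abel
    · left
      rw [cc_sub_of_lt h (by linarith)]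
      linarith
  rw [sw, Perm.mul_apply, Perm.mul_apply, h1, flip_in h0 h (by linarith)]
  have h2 : cc (((M - m : ℝ) : S) - z) = M - m - cc z := cc_refl h0 h (by linarith)
  rw [flip_in (by rw [h2]; linarith) (by rw [h2]; linarith) hM, AddCircle.coe_sub]
  abel

theorem cc_sw_lt {z : S} (h0 : 0 < cc z) (h : cc z < M - m) : cc (sw M m z) = cc z + m := by
  rw [sw_lt hm hmM hM h0 h]
  apply cc_eq
  · rw [AddCircle.coe_add, coe_cc]
  · linarith
  · linarith

theorem sw_eq {z : S} (h : cc z = M - m) : sw M m z = (m : S) := by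
  have hz : z = ((M - m : ℝ) : S) := by rw [← coe_cc z, h]
  have h1 : (rot ((M - m : ℝ) : S) * flip m * (rot ((M - m : ℝ) : S))⁻¹) z = z := by
    rw [third_apply, flip_out]
    · abel
    · right
      rw [hz, sub_self]
  rw [sw, Perm.mul_apply, Perm.mul_apply, h1, flip_out (l := M - m) (Or.inl (by rw [h])),
    flip_in (by rw [h]; linarith) (by rw [h]; linarith) hM, hz, AddCircle.coe_sub]
  abel

theorem sw_gt {z : S} (h : M - m < cc z) (h1 : cc z < M) : sw M m z = z + (m : S) - (M : S) := by
  have h2 : cc (z - ((M - m : ℝ) : S)) = cc z - (M - m) := cc_sub_of_le h.le (by linarith)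
  have h3 : (rot ((M - m : ℝ) : S) * flip m * (rot ((M - m : ℝ) : S))⁻¹) z =
      ((2 * M - m : ℝ) : S) - z := by
    rw [third_apply, flip_in (by rw [h2]; linarith) (by rw [h2]; linarith) (by linarith)]
    have : ((2 * M - m : ℝ) : S) = (M : S) + ((M - m : ℝ) : S) := by
      rw [← AddCircle.coe_add]
      congr 1
      ring
    rw [this, AddCircle.coe_sub]
    abel
  have h4 : cc (((2 * M - m : ℝ) : S) - z) = 2 * M - m - cc z := by
    apply cc_eq
    · have : ((2 * M - m - cc z : ℝ) : S) = ((2 * M - m : ℝ) : S) - ((cc z : ℝ) : S) := rfl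
      rw [this, coe_cc]
    · linarith
    · linarith
  rw [sw, Perm.mul_apply, Perm.mul_apply, h3, flip_out (l := M - m) (Or.inl (by rw [h4]; linarith)),
    flip_in (by rw [h4]; linarith) (by rw [h4]; linarith) hM]
  have : ((2 * M - m : ℝ) : S) = (M : S) + (M : S) - (m : S) := by
    rw [← AddCircle.coe_add, ← AddCircle.coe_sub]
    congr 1
    ring
  rw [this]
  abel

theorem cc_sw_gt {z : S} (h : M - m < cc z) (h1 : cc z < M) :
    cc (sw M m z) = cc z + m - M := by
  rw [sw_gt hm hmM hM h h1]
  apply cc_eq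
  · rw [AddCircle.coe_sub, AddCircle.coe_add, coe_cc]
  · linarith
  · linarith

theorem sw_out {z : S} (h : M ≤ cc z ∨ z = 0) : sw M m z = z := by
  have h1 : (rot ((M - m : ℝ) : S) * flip m * (rot ((M - m : ℝ) : S))⁻¹) z = z := by
    rw [third_apply, flip_out]
    · abel
    · left
      rcases h with h | h
      · rw [cc_sub_of_le (by linarith) (by linarith)]
        linarith
      · have hc : cc z = 0 := by rw [h, cc_zero]
        rw [cc_sub_of_lt (by rw [hc]; linarith) (by linarith), hc]
        linarith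
  have h2 : flip (M - m) z = z := by
    apply flip_out
    rcases h with h | h
    · left; linarith
    · right; exact h
  rw [sw, Perm.mul_apply, Perm.mul_apply, h1, h2, flip_out h]

theorem sw_mem {z : S} (h0 : 0 < cc z) (h : cc z < M) :
    0 < cc (sw M m z) ∧ cc (sw M m z) < M := by
  rcases lt_trichotomy (cc z) (M - m) with h1 | h1 | h1
  · rw [cc_sw_lt hm hmM hM h0 h1]
    exact ⟨by linarith, by linarith⟩
  · rw [sw_eq hm hmM hM h1, cc_coe hm.le (by linarith)]
    exact ⟨hm, hmM⟩
  · rw [cc_sw_gt hm hmM hM h1 h]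
    exact ⟨by linarith, by linarith⟩

theorem sw_pow {z : S} (h0 : 0 < cc z) (h : cc z < M) (j : ℕ) :
    ∃ j' k : ℕ, j ≤ j' ∧ cc ((sw M m ^ j) z) = cc z + j' * m - k * M ∧
      0 < cc ((sw M m ^ j) z) ∧ cc ((sw M m ^ j) z) < M := by
  induction j with
  | zero => exact ⟨0, 0, le_rfl, by simp, by simpa using h0, by simpa using h⟩
  | succ j ih =>
    obtain ⟨j', k, hj, he, h2, h3⟩ := ih
    rw [pow_succ', Perm.mul_apply]
    have h4 := sw_mem hm hmM hM h2 h3
    rcases lt_trichotomy (cc ((sw M m ^ j) z)) (M - m) with h1 | h1 | h1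
    · refine ⟨j' + 1, k, by omega, ?_, h4⟩
      rw [cc_sw_lt hm hmM hM h2 h1, he]
      push_cast
      ring
    · refine ⟨j' + 2, k + 1, by omega, ?_, h4⟩
      rw [sw_eq hm hmM hM h1, cc_coe hm.le (by linarith)]
      push_cast
      linarith
    · refine ⟨j' + 1, k + 1, by omega, ?_, h4⟩
      rw [cc_sw_gt hm hmM hM h1 h3, he]
      push_cast
      ring

end sw

/-- two restricted rotations compose to a third one, up to two points -/
theorem sw_mul_sw {M m n : ℝ} (hm : 0 < m) (hn : 0 < n) (hM : m + n < M) (hM1 : M ≤ 1) :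
    {x | (sw M m * sw M n) x ≠ sw M (m + n) x}.Finite := by
  refine (Set.toFinite {((M - n : ℝ) : S), ((M - m - n : ℝ) : S)}).subset ?_
  intro z hz
  by_contra hcon
  simp only [Set.mem_insert_iff, Set.mem_singleton_iff, not_or] at hcon
  have e1 : cc z ≠ M - n := fun h => hcon.1 (by rw [← h, coe_cc])
  have e2 : cc z ≠ M - m - n := fun h => hcon.2 (by rw [← h, coe_cc])
  apply hz
  rw [Perm.mul_apply]
  by_cases h : M ≤ cc z ∨ z = 0
  · rw [sw_out hn (by linarith) hM1 h, sw_out hm (by linarith) hM1 h,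
      sw_out (by linarith) hM hM1 h]
  · push Not at h
    have h0 : 0 < cc z := cc_pos h.2
    rcases lt_or_gt_of_ne e1 with h1 | h1
    · rw [sw_lt hn (by linarith) hM1 h0 h1]
      have hc : cc (z + (n : S)) = cc z + n := by
        rw [← sw_lt hn (by linarith) hM1 h0 h1]
        exact cc_sw_lt hn (by linarith) hM1 h0 h1
      rcases lt_or_gt_of_ne e2 with h2 | h2
      · rw [sw_lt hm (by linarith) hM1 (by rw [hc]; linarith) (by rw [hc]; linarith),
          sw_lt (by linarith) hM hM1 h0 (by linarith), AddCircle.coe_add]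
        abel
      · rw [sw_gt hm (by linarith) hM1 (by rw [hc]; linarith) (by rw [hc]; linarith),
          sw_gt (by linarith) hM hM1 (by linarith) h.1, AddCircle.coe_add]
        abel
    · rw [sw_gt hn (by linarith) hM1 h1 h.1]
      have hc : cc (z + (n : S) - (M : S)) = cc z + n - M := by
        rw [← sw_gt hn (by linarith) hM1 h1 h.1]
        exact cc_sw_gt hn (by linarith) hM1 h1 h.1
      rw [sw_lt hm (by linarith) hM1 (by rw [hc]; linarith) (by rw [hc]; linarith),
        sw_gt (by linarith) hM hM1 (by linarith) h.1, AddCircle.coe_add]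
      abel

/-! ### near lifts -/

variable {Y : Type*}

/-- the standard action on `S ⊕ Y` -/
noncomputable def ext (Y : Type*) (f : Perm S) : Perm (S ⊕ Y) := Equiv.sumCongr f (Equiv.refl Y)

@[simp] theorem ext_inl (f : Perm S) (x : S) : ext Y f (inl x) = inl (f x) := rfl
@[simp] theorem ext_inr (f : Perm S) (y : Y) : ext Y f (inr y) = inr y := rfl

/-- `z` is good for `Z`: up to any finite set there are points of its orbit in `U` -/
def Good (Z : Perm (S ⊕ Y)) (U : Set S) (z : S) : Prop :=
  ∀ E : Set (S ⊕ Y), E.Finite → ∃ j : ℤ, ∃ z' ∈ U, (Z ^ j) (inl z) = inl z' ∧ (inl z') ∉ E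

theorem finite_bad {Z : Perm (S ⊕ Y)} {s : Perm S} (hZ : {y | Z y ≠ ext Y s y}.Finite)
    {U : Set S} (hU : ∀ z ∈ U, s z ∈ U) (hU' : ∀ z, s z ∈ U → z ∈ U)
    (hs : ∀ z ∈ U, ∀ j : ℕ, 1 ≤ j → (s ^ j) z ≠ z) : {z | z ∈ U ∧ ¬ Good Z U z}.Finite := by
  set B : Set S := {b | Z (inl b) ≠ inl (s b)} with hB
  have hBf : B.Finite := hZ.preimage (f := (inl : S → S ⊕ Y)) (inl_injective.injOn)
  have hpow : ∀ z ∈ U, ∀ j : ℕ, (s ^ j) z ∈ U := by
    intro z hz j
    induction j with
    | zero => simpa using hz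
    | succ j ih => rw [pow_succ', Perm.mul_apply]; exact hU _ ih
  have hpow' : ∀ j : ℕ, ∀ z, (s ^ j) z ∈ U → z ∈ U := by
    intro j
    induction j with
    | zero => intro z hz; simpa using hz
    | succ j ih =>
      intro z hz
      rw [pow_succ', Perm.mul_apply] at hz
      exact ih _ (hU' _ hz)
  have hinj : ∀ z ∈ U, ∀ i j : ℕ, (s ^ i) z = (s ^ j) z → i = j := by
    intro z hz i j h
    by_contra hne
    wlog hlt : i < j generalizing i j
    · exact this j i h.symm (Ne.symm hne) (by omega)
    obtain ⟨k, rfl⟩ := Nat.exists_eq_add_of_lt hlt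
    have h2 : (s ^ i) ((s ^ (k + 1)) z) = (s ^ i) z := by
      rw [← Perm.mul_apply, ← pow_add, ← add_assoc]
      exact h.symm
    exact hs z hz (k + 1) (by omega) ((s ^ i).injective h2)
  have hsub : {z | z ∈ U ∧ ¬ Good Z U z} ⊆
      ⋃ b1 ∈ B, ⋃ b2 ∈ B, {z | z ∈ U ∧ ∃ i j : ℕ, (s ^ i) z = b1 ∧ (s ^ j) b2 = z} := by
    rintro z ⟨hzU, hz⟩
    by_cases h1 : ∃ i : ℕ, (s ^ i) z ∈ B
    · by_cases h2 : ∃ j : ℕ, ((s ^ j)⁻¹) z ∈ B
      · obtain ⟨i, hi⟩ := h1
        obtain ⟨j, hj⟩ := h2
        simp only [Set.mem_iUnion]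
        refine ⟨_, hi, _, hj, hzU, i, j, rfl, ?_⟩
        rw [← Perm.mul_apply, mul_inv_cancel, Perm.one_apply]
      · exfalso
        push Not at h2
        apply hz
        have hk : ∀ j : ℕ, (Z ^ j) (inl (((s ^ j)⁻¹) z)) = inl z := by
          intro j
          induction j with
          | zero => simp
          | succ j ih =>
            have h3 : ((s ^ (j + 1))⁻¹) z ∉ B := h2 _
            have h4 : Z (inl (((s ^ (j + 1))⁻¹) z)) = inl (s (((s ^ (j + 1))⁻¹) z)) := by
              by_contra h5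
              exact h3 h5
            have h5 : s (((s ^ (j + 1))⁻¹) z) = ((s ^ j)⁻¹) z := by
              rw [pow_succ, mul_inv_rev, Perm.mul_apply, ← Perm.mul_apply, mul_inv_cancel,
                Perm.one_apply]
            rw [pow_succ, Perm.mul_apply, h4, h5, ih]
        intro E hE
        have hmemU : ∀ j : ℕ, ((s ^ j)⁻¹) z ∈ U := by
          intro j
          apply hpow' j
          rw [← Perm.mul_apply, mul_inv_cancel, Perm.one_apply]
          exact hzU
        have hinf : (Set.range fun j : ℕ => (inl (((s ^ j)⁻¹) z) : S ⊕ Y)).Infinite := by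
          apply Set.infinite_range_of_injective
          intro i j hij
          have h6 : ((s ^ i)⁻¹) z = ((s ^ j)⁻¹) z := inl_injective hij
          have h7 := hinj _ (hmemU i) i j (by
            rw [← Perm.mul_apply, mul_inv_cancel, Perm.one_apply, h6, ← Perm.mul_apply,
              mul_inv_cancel, Perm.one_apply])
          exact h7
        obtain ⟨_, ⟨j, rfl⟩, hj⟩ := hinf.exists_notMem_finite hE
        refine ⟨-(j : ℤ), _, hmemU j, ?_, hj⟩
        rw [zpow_neg, zpow_natCast, Perm.inv_eq_iff_eq, hk]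
    · exfalso
      push Not at h1
      apply hz
      have hk : ∀ j : ℕ, (Z ^ j) (inl z) = inl ((s ^ j) z) := by
        intro j
        induction j with
        | zero => simp
        | succ j ih =>
          have h3 : (s ^ j) z ∉ B := h1 _
          have h4 : Z (inl ((s ^ j) z)) = inl (s ((s ^ j) z)) := by
            by_contra h5
            exact h3 h5
          rw [pow_succ', Perm.mul_apply, ih, h4, pow_succ', Perm.mul_apply]
      intro E hE
      have hinf : (Set.range fun j : ℕ => (inl ((s ^ j) z) : S ⊕ Y)).Infinite := by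
        apply Set.infinite_range_of_injective
        intro i j hij
        exact hinj z hzU i j (inl_injective hij)
      obtain ⟨_, ⟨j, rfl⟩, hj⟩ := hinf.exists_notMem_finite hE
      exact ⟨j, _, hpow z hzU j, by rw [zpow_natCast, hk], hj⟩
  refine Set.Finite.subset ?_ hsub
  refine hBf.biUnion fun b1 _ => hBf.biUnion fun b2 _ => ?_
  by_cases h : ∃ n : ℕ, (s ^ n) b2 = b1
  · obtain ⟨n, hn⟩ := h
    refine ((Set.finite_Iic n).image fun j => (s ^ j) b2).subset ?_
    rintro z ⟨hzU, i, j, h1, h2⟩
    refine ⟨j, ?_, h2⟩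
    have hb2 : b2 ∈ U := hpow' j _ (by rw [h2]; exact hzU)
    have h3 : (s ^ (i + j)) b2 = (s ^ n) b2 := by
      rw [pow_add, Perm.mul_apply, h2, h1, hn]
    have := hinj _ hb2 _ _ h3
    simp only [Set.mem_Iic]
    omega
  · convert Set.finite_empty
    ext z
    simp only [Set.mem_ofPred_eq, Set.mem_empty_iff_false, iff_false]
    rintro ⟨_, i, j, h1, h2⟩
    exact h ⟨i + j, by rw [pow_add, Perm.mul_apply, h2, h1]⟩

end Pool.Agent.N230.FL
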