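import Pool.Agent.N230.FL.Fin

/-!
# The contradiction, last part
-/

set_option autoImplicit false
set_option linter.unusedSectionVars false

namespace Pool.Agent.N230.FL

open Equiv Topology Sum

namespace Data

variable {Y : Type*} (D : Data Y)

/-- `w` is the point with index `0` of the orbit of `0` -/
def IsW (w : S ⊕ Y) : Prop := D.Fwd w 0

theorem exists_w : ∃ w, D.IsW w := D.exists_fwd 0

variable {D}

theorem IsW.inj {w : S ⊕ Y} (hw : D.IsW w) {m n : ℤ} (h : (D.T ^ m) w = (D.T ^ n) w) : m = n :=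
  Inf.inj D (D.fwd_inf hw) h

theorem IsW.R_w {w : S ⊕ Y} (hw : D.IsW w) (n : ℤ) : D.R ((D.T ^ n) w) = (D.T ^ (-n)) w := by
  obtain ⟨K, hK⟩ := hw
  obtain ⟨K', hK'⟩ := D.bwd_of_fwd (show D.Fwd w 0 from ⟨K, hK⟩)
  have hfin : {n : ℤ | D.R (inl (n • D.a)) ≠ inl (-(n • D.a))}.Finite := by
    refine (D.near _ D.hrefl).preimage (f := fun n : ℤ => (inl (n • D.a) : S ⊕ Y)) ?_
    intro m _ n _ hmn
    exact D.zsmul_inj (inl_injective hmn)
  obtain ⟨B, hB⟩ := hfin.bddAbove
  set N := max K (max (-K') (B + 1)) with hN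
  have h1 : (D.T ^ N) w = inl (N • D.a) := by
    rw [hK N (by omega), zero_add]
  have h2 : (D.T ^ (-N)) w = inl ((-N) • D.a) := by
    rw [hK' (-N) (by omega), zero_add]
  have h3 : D.R (inl (N • D.a)) = inl (-(N • D.a)) := by
    by_contra hcon
    have := hB (show N ∈ _ from hcon)
    omega
  have h4 : D.R ((D.T ^ N) w) = (D.T ^ (-N)) w := by
    rw [h1, h3, h2, neg_smul]
  have h5 : (D.T ^ n) w = (D.T ^ (n - N)) ((D.T ^ N) w) := by
    rw [← D.T_add]
    congr 2
    ring
  rw [h5, D.R_T, h4, ← D.T_add]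
  congr 2
  ring

theorem IsW.dn {w : S ⊕ Y} (hw : D.IsW w) : D.Dn w 0 := D.dn_of_fwd hw

theorem IsW.out {w : S ⊕ Y} (hw : D.IsW w) {l : ℝ} {i : ℤ} (h : D.Adm l i) {n : ℤ}
    (hn : l < cc (n • D.a)) : D.F l ((D.T ^ n) w) = (D.T ^ n) w :=
  D.fix_out h hw.dn (by rwa [zero_add])

theorem IsW.out_conj {w : S ⊕ Y} (hw : D.IsW w) {l : ℝ} {i : ℤ} (h : D.Adm l i) {j n : ℤ}
    (hn : l < cc ((n - j) • D.a)) :
    (D.T ^ j * D.F l * D.T ^ (-j)) ((D.T ^ n) w) = (D.T ^ n) w :=
  D.fix_out_conj h hw.dn j n (by rwa [zero_add])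

/-- the flip of `(0, l)` times the flip of the complementary arc is a reflection -/
theorem compl_rel {l : ℝ} {i : ℤ} (h : D.Adm l i) :
    D.F l * (D.T ^ i * D.F (1 - l) * D.T ^ (-i)) = D.T ^ i * D.R := by
  have h2 := h.compl
  rw [← D.conj_F h2, F, ← D.map_mul _ (D.flip_mem h) _ (D.conj_mem h2 _), R, D.T_zpow,
    ← D.map_mul _ (D.rot_mem i) _ D.hrefl]
  apply D.congr _ (D.G.mul_mem (D.flip_mem h) (D.conj_mem h2 _)) _
    (D.G.mul_mem (D.rot_mem i) D.hrefl)
  refine (Set.toFinite {(0 : S), (l : S)}).subset ?_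
  intro z hz
  by_contra hcon
  simp only [Set.mem_insert_iff, Set.mem_singleton_iff, not_or] at hcon
  apply hz
  rw [Perm.mul_apply, third_apply, Perm.mul_apply, rot_apply, refl_apply, ← h.2.2]
  have h0 : 0 < cc z := cc_pos hcon.1
  rcases lt_trichotomy (cc z) l with h1 | h1 | h1
  · have h3 : flip (1 - l) (z - (l : S)) = z - (l : S) := by
      apply flip_out
      left
      rw [cc_sub_of_lt h1 h.2.1.le]
      linarith
    rw [h3, sub_add_cancel, flip_in h0 h1 h.2.1.le]
    abel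
  · exact absurd (by rw [← coe_cc z, h1]) hcon.2
  · have h2 : cc (z - (l : S)) = cc z - l := cc_sub_of_le h1.le h.1.le
    have h3 : flip (1 - l) (z - (l : S)) = ((1 - l : ℝ) : S) - (z - (l : S)) := by
      apply flip_in
      · rw [h2]; linarith
      · rw [h2]; linarith [cc_lt z]
      · linarith [h.1]
    have h4 : ((1 - l : ℝ) : S) - (z - (l : S)) + (l : S) = (l : S) - z := by
      rw [AddCircle.coe_sub, coe_one]
      abel
    have h5 : cc ((l : S) - z) = l - cc z + 1 := by
      apply cc_eq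
      · rw [coe_add_one, AddCircle.coe_sub, coe_cc]
      · linarith [cc_lt z, h.1]
      · linarith
    rw [h3, h4, flip_out]
    · abel
    · left
      rw [h5]
      linarith [cc_lt z]

/-- commuting conjugates of lifts of flips -/
theorem comm_conj {l l' : ℝ} {i i' : ℤ} (h : D.Adm l i) (h' : D.Adm l' i') {j : ℤ}
    (h1 : l ≤ cc (j • D.a)) (h2 : cc (j • D.a) + l' ≤ 1) (x : S ⊕ Y) :
    D.F l ((D.T ^ j * D.F l' * D.T ^ (-j)) x) = (D.T ^ j * D.F l' * D.T ^ (-j)) (D.F l x) := by
  rw [← Perm.mul_apply, ← Perm.mul_apply, ← D.conj_F h', F,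
    ← D.map_mul _ (D.flip_mem h) _ (D.conj_mem h' _),
    ← D.map_mul _ (D.conj_mem h' _) _ (D.flip_mem h)]
  congr 2
  apply Perm.Disjoint.commute
  intro z
  by_cases hz : l ≤ cc z ∨ z = 0
  · left
    exact flip_out hz
  · right
    push Not at hz
    rw [third_apply, flip_out]
    · abel
    · left
      have h3 : cc (z - j • D.a) = cc z - cc (j • D.a) + 1 := by
        apply cc_eq
        · rw [coe_add_one, AddCircle.coe_sub, coe_cc, coe_cc]
        · linarith [cc_nonneg z, cc_lt (j • D.a)]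
        · linarith [hz.1]
      rw [h3]
      linarith [cc_nonneg z]

theorem Adm.cc {l : ℝ} {i : ℤ} (h : D.Adm l i) : FL.cc (i • D.a) = l := by
  rw [← h.2.2, cc_coe h.1.le h.2.1]

/-- inside the open arc the lift of the flip is the reflection -/
theorem IsW.inside {w : S ⊕ Y} (hw : D.IsW w) {l : ℝ} {i : ℤ} (h : D.Adm l i) {n : ℤ}
    (h0 : 0 < FL.cc (n • D.a)) (hn : FL.cc (n • D.a) < l) :
    D.F l ((D.T ^ n) w) = (D.T ^ (i - n)) w := by
  have h1 : (D.T ^ i * D.F (1 - l) * D.T ^ (-i)) ((D.T ^ n) w) = (D.T ^ n) w := by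
    apply hw.out_conj h.compl
    have : FL.cc ((n - i) • D.a) = FL.cc (n • D.a) - l + 1 := by
      rw [sub_smul, ← h.2.2]
      exact cc_sub_of_lt hn h.2.1.le
    rw [this]
    linarith
  have h2 := compl_rel h
  have h3 : D.F l ((D.T ^ i * D.F (1 - l) * D.T ^ (-i)) ((D.T ^ n) w)) =
      (D.T ^ i) (D.R ((D.T ^ n) w)) := by
    rw [← Perm.mul_apply, h2, Perm.mul_apply]
  rw [h1, hw.R_w, ← D.T_add] at h3
  rw [h3]
  congr 2

theorem IsW.end_mem {w : S ⊕ Y} (hw : D.IsW w) {l : ℝ} {i : ℤ} (h : D.Adm l i) (hl : l < 1 / 2) :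
    D.F l w = w ∨ D.F l w = (D.T ^ i) w := by
  by_cases hinf : D.Inf (D.F l w)
  · obtain ⟨x, hx⟩ := D.inf_fwd hinf
    have hFF : D.F l (D.F l w) = w := D.F_F h w
    rcases lt_trichotomy (FL.cc x) l with h1 | h1 | h1
    · by_cases hx0 : x = 0
      · left
        obtain ⟨K, hK⟩ := hx
        obtain ⟨K', hK'⟩ := hw
        have h2 := hK (max K K') (le_max_left _ _)
        rw [hx0, ← hK' (max K K') (le_max_right _ _)] at h2
        exact (D.T ^ (max K K')).injective h2
      · right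
        have h2 : (D.T ^ i * D.F (1 - l) * D.T ^ (-i)) (D.F l w) = D.F l w := by
          have h3 := D.fix_out_conj h.compl (D.dn_of_fwd hx) i 0 (by
            have : FL.cc (x + (0 - i) • D.a) = FL.cc x - l + 1 := by
              rw [zero_sub, neg_smul, ← h.2.2, ← sub_eq_add_neg]
              exact cc_sub_of_lt h1 h.2.1.le
            rw [this]
            linarith [cc_pos hx0])
          simpa using h3
        have h4 : D.F l ((D.T ^ i * D.F (1 - l) * D.T ^ (-i)) (D.F l w)) =
            (D.T ^ i) (D.R (D.F l w)) := by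
          rw [← Perm.mul_apply, compl_rel h, Perm.mul_apply]
        rw [h2, hFF] at h4
        have h5 : D.R (D.F l w) = (D.T ^ (-i)) w := by
          have h6 := congrArg (D.T ^ (-i)) h4
          rw [← D.T_add, neg_add_cancel, zpow_zero, Perm.one_apply] at h6
          exact h6.symm
        have h7 := congrArg D.R h5
        rw [D.R_R, hw.R_w, neg_neg] at h7
        exact h7
    · right
      have hx' : x = i • D.a := by
        rw [← h.2.2, ← coe_cc x, h1]
      obtain ⟨K, hK⟩ := hx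
      obtain ⟨K', hK'⟩ := hw
      have h2 := hK (max K K') (le_max_left _ _)
      have h3 := hK' (max K (max K' (K' + (i : ℤ)) - i) + i) (by omega)
      have h4 := hK (max K (max K' (K' + (i : ℤ)) - i)) (le_max_left _ _)
      rw [D.T_add, zero_add, add_smul, add_comm (_ • D.a) (i • D.a), ← hx', ← h4] at h3
      exact ((D.T ^ (max K (max K' (K' + (i : ℤ)) - i))).injective h3).symm
    · left
      have h2 := D.fix_out h (D.dn_of_fwd hx) (p := 0) (by
        rw [zero_smul, add_zero]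
        exact h1)
      rw [zpow_zero, Perm.one_apply, hFF] at h2
      exact h2.symm
  · left
    unfold Inf at hinf
    push Not at hinf
    obtain ⟨k, hk, hky⟩ := hinf
    -- a multiple of `k` which moves the arc off itself
    have hirr : Irrational ((k : ℝ) * D.α) := by
      apply D.hα.intCast_mul
      omega
    obtain ⟨n, _, h1, h2⟩ := exists_ge_int hirr 0 (u := l) (v := 1 - l) h.1.le (by linarith)
      (by linarith [h.1]) 0
    have hmul : (n * k) • D.a = 0 + n • (((k : ℝ) * D.α : ℝ) : S) := by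
      rw [zero_add, mul_smul, a, ← zsmul_eq_mul]
      congr 1
    rw [← hmul] at h1 h2
    have hT : ∀ m : ℤ, (D.T ^ (m * k)) (D.F l w) = D.F l w := by
      have hnat : ∀ m : ℕ, (D.T ^ ((m : ℤ) * k)) (D.F l w) = D.F l w := by
        intro m
        induction m with
        | zero => simp
        | succ m ih =>
          rw [show ((m + 1 : ℕ) : ℤ) * k = m * k + k by push_cast; ring, D.T_add, hky, ih]
      intro m
      obtain ⟨m', rfl | rfl⟩ := m.eq_nat_or_neg
      · exact hnat m'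
      · have h3 := congrArg (D.T ^ (-(m' : ℤ) * k)) (hnat m')
        rw [← D.T_add, show -(m' : ℤ) * k + m' * k = 0 by ring, zpow_zero, Perm.one_apply] at h3
        exact h3.symm
    have h3 : (D.T ^ (n * k) * D.F l * D.T ^ (-(n * k))) w = w := by
      have := hw.out_conj h (j := n * k) (n := 0) (by
        have hne : (n * k) • D.a ≠ 0 := by
          intro h0
          rw [h0, cc_zero] at h1
          linarith [h.1]
        rw [zero_sub, neg_smul, cc_neg hne]
        linarith)
      simpa using this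
    have h4 := comm_conj h h h1.le (by linarith) w
    rw [h3, Perm.mul_apply, Perm.mul_apply, ← neg_mul, hT] at h4
    have h5 := congrArg (D.T ^ (-(n * k))) h4
    rw [← D.T_add, neg_add_cancel, zpow_zero, Perm.one_apply, ← neg_mul, hT, D.F_F h] at h5
    exact h5

theorem IsW.F_end {w : S ⊕ Y} (hw : D.IsW w) {l : ℝ} {i : ℤ} (h : D.Adm l i) (hl : l < 1 / 2) :
    D.F l ((D.T ^ i) w) = (D.T ^ i) (D.R (D.F l w)) := by
  have h1 : (D.T ^ i) w = (D.T ^ i) (D.R w) := by
    have := hw.R_w 0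
    simp only [neg_zero, zpow_zero, Perm.one_apply] at this
    rw [this]
  have h2 := comm_conj h h.compl (j := i) (by rw [h.cc]) (by rw [h.cc]; linarith)
  have h3 : ∀ x, (D.T ^ i) (D.R x) =
      D.F l ((D.T ^ i * D.F (1 - l) * D.T ^ (-i)) x) := by
    intro x
    rw [← Perm.mul_apply (D.F l), compl_rel h, Perm.mul_apply]
  rw [h1, h3, h3, ← h2]

/-- the end points are fixed -/
theorem IsW.fix_zero {w : S ⊕ Y} (hw : D.IsW w) {l : ℝ} {i : ℤ} (h : D.Adm l i)
    (hl : l < 1 / 2) : D.F l w = w := by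
  rcases hw.end_mem h hl with h1 | h1
  · exact h1
  exfalso
  have h2 : D.F l ((D.T ^ i) w) = w := by
    rw [hw.F_end h hl, h1, hw.R_w, ← D.T_add, add_neg_cancel, zpow_zero, Perm.one_apply]
  have hcomm := comm_conj h h (j := i) (by rw [h.cc]) (by rw [h.cc]; linarith) ((D.T ^ i) w)
  have h3 : (D.T ^ i * D.F l * D.T ^ (-i)) ((D.T ^ i) w) = (D.T ^ (2 * i)) w := by
    rw [Perm.mul_apply, Perm.mul_apply, ← D.T_add, neg_add_cancel, zpow_zero, Perm.one_apply, h1,
      ← D.T_add, two_mul]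
  have h4 : D.F l ((D.T ^ (2 * i)) w) = (D.T ^ (2 * i)) w := by
    apply hw.out h
    have : FL.cc ((2 * i) • D.a) = 2 * l := by
      apply cc_eq
      · rw [two_mul, two_mul, add_smul, ← h.2.2, AddCircle.coe_add]
      · linarith [h.1]
      · linarith
    rw [this]
    linarith [h.1]
  have h5 : (D.T ^ i * D.F l * D.T ^ (-i)) w = w := by
    have := hw.out_conj h (j := i) (n := 0) (by
      have hne : i • D.a ≠ 0 := by
        intro h0
        have := h.cc
        rw [h0, cc_zero] at this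
        linarith [h.1]
      rw [zero_sub, neg_smul, cc_neg hne, h.cc]
      linarith)
    simpa using this
  rw [h3, h4, h2, h5] at hcomm
  have h6 : (D.T ^ (2 * i)) w = (D.T ^ (0 : ℤ)) w := by simpa using hcomm
  have h7 := hw.inj h6
  have h8 : i = 0 := by omega
  have h9 := h.cc
  rw [h8, zero_smul, cc_zero] at h9
  linarith [h.1]

theorem IsW.fix_end {w : S ⊕ Y} (hw : D.IsW w) {l : ℝ} {i : ℤ} (h : D.Adm l i)
    (hl : l < 1 / 2) : D.F l ((D.T ^ i) w) = (D.T ^ i) w := by
  have h0 := hw.R_w 0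
  simp only [neg_zero, zpow_zero, Perm.one_apply] at h0
  rw [hw.F_end h hl, hw.fix_zero h hl, h0]

/-- the lift of a restricted rotation -/
theorem map_sw {M m : ℝ} {i j : ℤ} (hM : D.Adm M i) (hm : D.Adm m j) (h : m < M) (x : S ⊕ Y) :
    D.Θ (sw M m) x =
      D.F M (D.F (M - m) ((D.T ^ (i - j) * D.F m * D.T ^ (-(i - j))) x)) := by
  have h1 := hM.sub D hm h
  have h2 : sw M m = flip M * (flip (M - m) * (rot ((i - j) • D.a) * flip m *
      (rot ((i - j) • D.a))⁻¹)) := by
    rw [sw, h1.2.2]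
  rw [h2, D.map_mul _ (D.flip_mem hM) _ (D.G.mul_mem (D.flip_mem h1) (D.conj_mem hm _)),
    D.map_mul _ (D.flip_mem h1) _ (D.conj_mem hm _), D.conj_F hm]
  rfl

end Data

/-- **there is no such lift** -/
theorem Data.false {Y : Type*} (D : Data Y) : False := by
  obtain ⟨w, hw⟩ := D.exists_w
  obtain ⟨M, i, hM, hM2⟩ := D.exists_adm (ε := 1 / 2) (by norm_num) (by norm_num)
  obtain ⟨m, j, hm, hm2⟩ := D.exists_adm (ε := M / 2) (by linarith [hM.1]) (by linarith [hM.2.1])
  obtain ⟨n, k, hn, hn2⟩ := D.exists_adm (ε := M / 2) (by linarith [hM.1]) (by linarith [hM.2.1])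
  have hmn : D.Adm (m + n) (j + k) := by
    refine ⟨by linarith [hm.1, hn.1], by linarith [hM.2.1], ?_⟩
    rw [AddCircle.coe_add, hm.2.2, hn.2.2, add_smul]
  have hlt : m + n < M := by linarith
  have hmM : m < M := by linarith [hn.1]
  have hnM : n < M := by linarith [hm.1]
  -- the relation
  have hrel : D.Θ (sw M m) (D.Θ (sw M n) ((D.T ^ (i - (j + k))) w)) =
      D.Θ (sw M (m + n)) ((D.T ^ (i - (j + k))) w) := by
    rw [← Perm.mul_apply, ← D.map_mul _ (D.sw_mem_G hM hm hmM) _ (D.sw_mem_G hM hn hnM)]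
    congr 1
    exact D.congr _ (D.G.mul_mem (D.sw_mem_G hM hm hmM) (D.sw_mem_G hM hn hnM)) _
      (D.sw_mem_G hM hmn hlt) (sw_mul_sw hm.1 hn.1 hlt hM.2.1.le)
  have hA1 := hM.sub D hmn hlt
  have hA2 := hM.sub D hm hmM
  have hA3 := hM.sub D hn hnM
  -- right-hand side
  have hR : D.Θ (sw M (m + n)) ((D.T ^ (i - (j + k))) w) = (D.T ^ (j + k)) w := by
    rw [Data.map_sw hM hmn hlt]
    have e1 : (D.T ^ (i - (j + k)) * D.F (m + n) * D.T ^ (-(i - (j + k))))
        ((D.T ^ (i - (j + k))) w) = (D.T ^ (i - (j + k))) w := by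
      rw [Perm.mul_apply, Perm.mul_apply, ← D.T_add, neg_add_cancel, zpow_zero, Perm.one_apply,
        hw.fix_zero hmn (by linarith)]
    rw [e1, hw.fix_end hA1 (by linarith [hmn.1]), hw.inside hM (by rw [hA1.cc]; exact hA1.1)
      (by rw [hA1.cc]; linarith [hmn.1])]
    congr 2
    ring
  have hL1 : D.Θ (sw M n) ((D.T ^ (i - (j + k))) w) = (D.T ^ (i - j)) w := by
    rw [Data.map_sw hM hn hnM]
    have e1 : (D.T ^ (i - k) * D.F n * D.T ^ (-(i - k))) ((D.T ^ (i - (j + k))) w) =
        (D.T ^ (i - (j + k))) w := by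
      apply hw.out_conj hn
      have : FL.cc ((i - (j + k) - (i - k)) • D.a) = 1 - m := by
        have hne : j • D.a ≠ 0 := by
          intro h0
          have := hm.cc
          rw [h0, cc_zero] at this
          linarith [hm.1]
        rw [show i - (j + k) - (i - k) = -j by ring, neg_smul, cc_neg hne, hm.cc]
      rw [this]
      linarith
    rw [e1, hw.inside hA3 (by rw [hA1.cc]; exact hA1.1) (by rw [hA1.cc]; linarith [hm.1]),
      show i - k - (i - (j + k)) = j by ring, hw.inside hM (by rw [hm.cc]; exact hm.1)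
      (by rw [hm.cc]; exact hmM)]
  have hL2 : D.Θ (sw M m) ((D.T ^ (i - j)) w) = (D.T ^ j) w := by
    rw [Data.map_sw hM hm hmM]
    have e1 : (D.T ^ (i - j) * D.F m * D.T ^ (-(i - j))) ((D.T ^ (i - j)) w) =
        (D.T ^ (i - j)) w := by
      rw [Perm.mul_apply, Perm.mul_apply, ← D.T_add, neg_add_cancel, zpow_zero, Perm.one_apply,
        hw.fix_zero hm (by linarith)]
    rw [e1, hw.fix_end hA2 (by linarith [hm.1]), hw.inside hM (by rw [hA2.cc]; exact hA2.1)
      (by rw [hA2.cc]; linarith [hm.1])]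
    congr 2
    ring
  rw [hL1, hL2, hR] at hrel
  have h1 := hw.inj hrel
  have h2 : k = 0 := by omega
  have h3 := hn.cc
  rw [h2, zero_smul, cc_zero] at h3
  linarith [hn.1]

end Pool.Agent.N230.FL
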