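import Pool.Agent.N230.FL.Main

/-!
# The contradiction
-/

set_option autoImplicit false
set_option linter.unusedSectionVars false

namespace Pool.Agent.N230.FL

open Equiv Topology Sum

namespace Data

variable {Y : Type*} (D : Data Y)

theorem adm_irr {M : ℝ} {i : ℤ} (h : D.Adm M i) : Irrational M := by
  obtain ⟨h0, h1, h2⟩ := h
  rintro ⟨q, hq⟩
  have hi : i ≠ 0 := by
    rintro rfl
    rw [zero_smul] at h2
    have := cc_eq h2 h0.le h1
    rw [cc_zero] at this
    linarith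
  have h3 : ((M - i * D.α : ℝ) : S) = 0 := by
    rw [AddCircle.coe_sub, h2, sub_eq_zero, a, ← zsmul_eq_mul]
    exact (AddCircle.coe_zsmul ..).symm
  rw [AddCircle.coe_eq_zero_iff] at h3
  obtain ⟨k, hk⟩ := h3
  have hk' : (k : ℝ) = M - i * D.α := by simpa using hk
  have hi' : (i : ℝ) ≠ 0 := by exact_mod_cast hi
  refine D.hα ⟨(q - k) / i, ?_⟩
  push_cast
  rw [div_eq_iff hi', hq, hk']
  ring

/-- small admissible lengths -/
theorem exists_adm {ε : ℝ} (hε : 0 < ε) (hε1 : ε ≤ 1) : ∃ (M : ℝ) (i : ℤ), D.Adm M i ∧ M < ε := by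
  obtain ⟨n, _, h1, h2⟩ := exists_ge_int D.hα 0 le_rfl hε hε1 0
  refine ⟨_, n, ⟨h1, cc_lt _, ?_⟩, h2⟩
  rw [coe_cc, zero_add]
  rfl

theorem Adm.sub {M m : ℝ} {i j : ℤ} (hM : D.Adm M i) (hm : D.Adm m j) (h : m < M) :
    D.Adm (M - m) (i - j) := by
  refine ⟨by linarith, by linarith [hM.2.1, hm.1], ?_⟩
  rw [AddCircle.coe_sub, hM.2.2, hm.2.2, sub_smul]

theorem Adm.compl {l : ℝ} {i : ℤ} (h : D.Adm l i) : D.Adm (1 - l) (-i) := by
  refine ⟨by linarith [h.2.1], by linarith [h.1], ?_⟩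
  rw [AddCircle.coe_sub, coe_one, h.2.2, neg_smul, zero_sub]

/-- the remainder of `1` modulo `M` -/
theorem exists_rem {M : ℝ} {i : ℤ} (hM : D.Adm M i) :
    ∃ (m : ℝ) (j : ℤ) (N : ℕ), D.Adm m j ∧ m < M ∧ m = 1 - N * M := by
  have hirr := D.adm_irr hM
  set N := ⌊1 / M⌋₊ with hN
  have h1 : (N : ℝ) ≤ 1 / M := Nat.floor_le (by have := hM.1; positivity)
  have h2 : 1 / M < N + 1 := Nat.lt_floor_add_one _
  have hM0 := hM.1
  rw [le_div_iff₀ hM0] at h1
  rw [div_lt_iff₀ hM0] at h2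
  have h3 : (N : ℝ) * M ≠ 1 := by
    intro h
    have hN0 : (N : ℝ) ≠ 0 := by
      intro h0
      rw [h0, zero_mul] at h
      exact zero_ne_one h
    refine hirr ⟨1 / N, ?_⟩
    push_cast
    rw [div_eq_iff hN0, ← h, mul_comm]
  have h4 : (N : ℝ) * M < 1 := lt_of_le_of_ne h1 h3
  have hN1 : (1 : ℝ) ≤ N := by
    by_contra hcon
    push Not at hcon
    have : N = 0 := by
      have : N < 1 := by exact_mod_cast hcon
      omega
    rw [this] at h2
    simp only [Nat.cast_zero, zero_add, one_mul] at h2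
    linarith [hM.2.1]
  refine ⟨1 - N * M, -(N * i), N, ⟨by linarith, by nlinarith, ?_⟩, by linarith, rfl⟩
  rw [AddCircle.coe_sub, coe_one, zero_sub, neg_smul, mul_smul, ← hM.2.2]
  congr 1
  rw [natCast_zsmul, ← nsmul_eq_mul]
  exact AddCircle.coe_nsmul ..

theorem sw_mem_G {M m : ℝ} {i j : ℤ} (hM : D.Adm M i) (hm : D.Adm m j) (h : m < M) :
    sw M m ∈ D.G := by
  have h1 := hM.sub D hm h
  have h2 : rot ((M - m : ℝ) : S) ∈ D.G := by
    rw [h1.2.2]
    exact D.rot_mem _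
  exact D.G.mul_mem (D.flip_mem hM) (D.G.mul_mem (D.flip_mem h1)
    (D.G.mul_mem (D.G.mul_mem h2 (D.flip_mem hm)) (D.G.inv_mem h2)))

/-- conjugates of the lifts of flips by rotations -/
theorem conj_F {l : ℝ} {i : ℤ} (h : D.Adm l i) (m : ℤ) :
    D.Θ (rot (m • D.a) * flip l * (rot (m • D.a))⁻¹) = D.T ^ m * D.F l * D.T ^ (-m) := by
  have h1 := D.rot_mem m
  have h2 := D.flip_mem h
  rw [D.map_mul _ (D.G.mul_mem h1 h2) _ (D.G.inv_mem h1), D.map_mul _ h1 _ h2, D.map_inv h1,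
    ← D.T_zpow, zpow_neg]
  rfl

theorem conj_mem {l : ℝ} {i : ℤ} (h : D.Adm l i) (m : ℤ) :
    rot (m • D.a) * flip l * (rot (m • D.a))⁻¹ ∈ D.G :=
  D.G.mul_mem (D.G.mul_mem (D.rot_mem m) (D.flip_mem h)) (D.G.inv_mem (D.rot_mem m))

/-- the key lemma: the lift of a flip fixes the points of the orbit outside the closed arc -/
theorem fix_out {l : ℝ} {i : ℤ} (h : D.Adm l i) {v : S ⊕ Y} {x : S} (hv : D.Dn v x) {p : ℤ}
    (hp : l < cc (x + p • D.a)) : D.F l ((D.T ^ p) v) = (D.T ^ p) v := by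
  set c0 := cc (x + p • D.a) with hc0
  have hc1 : c0 < 1 := cc_lt _
  obtain ⟨M, iM, hM, hMlt⟩ := D.exists_adm (ε := min (c0 - l) (1 - c0))
    (lt_min (by linarith) (by linarith)) (by
      refine (min_le_left _ _).trans ?_
      linarith [h.1])
  have hM1 : M < c0 - l := lt_of_lt_of_le hMlt (min_le_left _ _)
  have hM2 : M < 1 - c0 := lt_of_lt_of_le hMlt (min_le_right _ _)
  obtain ⟨m, jm, N, hm, hmM, hmN⟩ := D.exists_rem hM
  obtain ⟨s, hs⟩ : ∃ s, s = sw M m := ⟨_, rfl⟩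
  have hsG : s ∈ D.G := hs ▸ D.sw_mem_G hM hm hmM
  set U : Set S := {z | 0 < cc z ∧ cc z < M} with hU
  have hsU : ∀ z ∈ U, s z ∈ U := fun z hz => hs ▸ sw_mem hm.1 hmM hM.2.1.le hz.1 hz.2
  have hsout : ∀ z, z ∉ U → s z = z := by
    intro z hz
    rw [hs]
    apply sw_out hm.1 hmM hM.2.1.le
    by_contra hcon
    push Not at hcon
    exact hz ⟨cc_pos hcon.2, hcon.1⟩
  have hsU' : ∀ z, s z ∈ U → z ∈ U := by
    intro z hz
    by_contra hcon
    rw [hsout z hcon] at hz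
    exact hcon hz
  have hsj : ∀ z ∈ U, ∀ j : ℕ, 1 ≤ j → (s ^ j) z ≠ z := by
    intro z hz j hj he
    obtain ⟨j', k, h1, h2, _, _⟩ := sw_pow hm.1 hmM hM.2.1.le hz.1 hz.2 j
    rw [← hs, he] at h2
    have h3 : (j' : ℝ) = (k + j' * N) * M := by
      have : (j' : ℝ) * m = k * M := by linarith
      rw [hmN] at this
      linarith
    have hj' : (0 : ℝ) < j' := by
      have : 0 < j' := by omega
      exact_mod_cast this
    have h4 : ((k : ℝ) + j' * N) ≠ 0 := by
      intro h0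
      rw [h0, zero_mul] at h3
      linarith
    refine D.adm_irr hM ⟨(j' : ℚ) / (k + j' * N), ?_⟩
    push_cast
    rw [div_eq_iff h4]
    linarith
  have hbad := finite_bad (D.near s hsG) hsU hsU' hsj
  -- a good time
  have hinf := hv M hM.1 hM.2.1.le
  obtain ⟨n, hn, hgood⟩ : ∃ n ∈ {n : ℤ | (D.T ^ n) v = inl (x + n • D.a) ∧
      0 < cc (x + n • D.a) ∧ cc (x + n • D.a) < M}, Good (D.Θ s) U (x + n • D.a) := by
    by_contra hcon
    push Not at hcon
    apply hinf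
    have hpre : {n : ℤ | x + n • D.a ∈ {z | z ∈ U ∧ ¬ Good (D.Θ s) U z}}.Finite :=
      hbad.preimage (f := fun n : ℤ => x + n • D.a)
        (fun m _ n _ hmn => D.zsmul_inj (add_left_cancel hmn))
    exact hpre.subset fun n hn => ⟨⟨hn.2.1, hn.2.2⟩, hcon n hn⟩
  obtain ⟨hn1, hn2, hn3⟩ := hn
  obtain ⟨g, hg⟩ : ∃ g, g = rot ((n - p) • D.a) * flip l * (rot ((n - p) • D.a))⁻¹ := ⟨_, rfl⟩
  have hgG : g ∈ D.G := hg ▸ D.conj_mem h _
  have hgU : ∀ z ∈ U, g z = z := by
    intro z hz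
    have h1 : cc (z - (n - p) • D.a) = c0 + (cc z - cc (x + n • D.a)) := by
      apply cc_eq
      · rw [AddCircle.coe_add, AddCircle.coe_sub, hc0]
        simp only [coe_cc, sub_smul]
        abel
      · linarith [hz.1, h.1]
      · linarith [hz.2]
    rw [hg, third_apply, flip_out]
    · abel
    · left
      rw [h1]
      linarith [hz.1]
  have hcomm : g * s = s * g := by
    ext z
    rw [Perm.mul_apply, Perm.mul_apply]
    by_cases hz : z ∈ U
    · rw [hgU z hz, hgU _ (hsU z hz)]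
    · rw [hsout z hz]
      by_cases hgz : g z ∈ U
      · have := hgU _ hgz
        exact absurd (g.injective this ▸ hgz) hz
      · rw [hsout _ hgz]
  have hcomm2 : D.Θ g * D.Θ s = D.Θ s * D.Θ g := by
    rw [← D.map_mul _ hgG _ hsG, hcomm, D.map_mul _ hsG _ hgG]
  obtain ⟨j, z', hz', hj, hjE⟩ := hgood _ (D.near g hgG)
  have h5 : D.Θ g (inl z') = inl z' := by
    by_contra hcon
    apply hjE
    show D.Θ g (inl z') ≠ _
    rw [ext_inl, hgU z' hz']
    exact hcon
  have h6 : D.Θ g ((D.T ^ n) v) = (D.T ^ n) v := by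
    have hc : Commute (D.Θ g) (D.Θ s ^ j) := (show Commute (D.Θ g) (D.Θ s) from hcomm2).zpow_right j
    have h7 : D.Θ g ((D.Θ s ^ j) (inl (x + n • D.a))) = (D.Θ s ^ j) (inl (x + n • D.a)) := by
      rw [hj, h5]
    rw [← Perm.mul_apply, hc.eq, Perm.mul_apply] at h7
    rw [hn1]
    exact (D.Θ s ^ j).injective h7
  rw [hg, D.conj_F h, Perm.mul_apply, Perm.mul_apply, ← D.T_add] at h6
  rw [show -(n - p) + n = p by ring] at h6
  have h8 := congrArg (D.T ^ (-(n - p))) h6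
  rw [← D.T_add, ← D.T_add, neg_add_cancel, zpow_zero, Perm.one_apply] at h8
  rw [h8]
  congr 2
  ring

theorem fix_out_conj {l : ℝ} {i : ℤ} (h : D.Adm l i) {v : S ⊕ Y} {x : S} (hv : D.Dn v x)
    (j p : ℤ) (hp : l < cc (x + (p - j) • D.a)) :
    (D.T ^ j * D.F l * D.T ^ (-j)) ((D.T ^ p) v) = (D.T ^ p) v := by
  rw [Perm.mul_apply, Perm.mul_apply, ← D.T_add, show -j + p = p - j by ring, D.fix_out h hv hp,
    ← D.T_add]
  congr 2
  ring

/-- the two ends of an orbit are the ends of the same rotation orbit -/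
theorem bwd_of_fwd {v : S ⊕ Y} {x : S} (h : D.Fwd v x) : D.Bwd v x := by
  obtain ⟨z, hz⟩ := D.inf_bwd (D.fwd_inf h)
  suffices z = x by rw [← this]; exact hz
  by_contra hne
  have hd : 0 < cc (z - x) := cc_pos (sub_ne_zero.2 hne)
  have hd1 : cc (z - x) < 1 := cc_lt _
  obtain ⟨l, i, hl, hlt⟩ := D.exists_adm (ε := min (cc (z - x)) (1 - cc (z - x)))
    (lt_min hd (by linarith)) ((min_le_left _ _).trans hd1.le)
  have hl1 : l < cc (z - x) := lt_of_lt_of_le hlt (min_le_left _ _)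
  have hl2 : l < 1 - cc (z - x) := lt_of_lt_of_le hlt (min_le_right _ _)
  obtain ⟨K, hK⟩ := h
  -- the bad times of the flip
  have hfin : {n : ℤ | D.F l (inl (x + n • D.a)) ≠ inl (flip l (x + n • D.a))}.Finite := by
    refine (D.near _ (D.flip_mem hl)).preimage (f := fun n : ℤ => (inl (x + n • D.a) : S ⊕ Y)) ?_
    intro m _ n _ hmn
    exact D.zsmul_inj (add_left_cancel (inl_injective hmn))
  obtain ⟨B, hB⟩ := hfin.bddAbove
  obtain ⟨n, hn, h1, h2⟩ := exists_ge_int D.hα x le_rfl (show 0 < l / 2 by linarith [hl.1])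
    (by linarith [hl.2.1]) (max K (B + 1))
  change 0 < cc (x + n • D.a) at h1
  change cc (x + n • D.a) < l / 2 at h2
  have h3 : D.F l (inl (x + n • D.a)) = inl (flip l (x + n • D.a)) := by
    by_contra hcon
    have := hB (show n ∈ _ from hcon)
    omega
  have h4 : cc (flip l (x + n • D.a)) = l - cc (x + n • D.a) := by
    rw [flip_in h1 (by linarith) hl.2.1.le]
    exact cc_refl h1 (by linarith) hl.2.1.le
  have h5 : l < cc (z + n • D.a) := by
    have : cc (z + n • D.a) = cc (z - x) + cc (x + n • D.a) := by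
      apply cc_eq
      · rw [AddCircle.coe_add, coe_cc, coe_cc]
        abel
      · linarith
      · linarith [hl.1]
    rw [this]
    linarith
  have h6 := D.fix_out hl (D.dn_of_bwd hz) h5
  rw [hK n (by omega), h3] at h6
  have h7 := congrArg cc (inl_injective h6)
  rw [h4] at h7
  linarith

end Data

end Pool.Agent.N230.FL
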