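import Pool.Agent.N230.FL.Core

/-!
# No near lift of the flips of arcs, of the rotation and of the reflection
-/

set_option autoImplicit false
set_option linter.unusedSectionVars false

namespace Pool.Agent.N230.FL

open Equiv Topology Sum

/-- a lift of the near action on `S ⊕ Y` of a group of permutations of the circle which contains
an irrational rotation, the reflection and the flips of arcs with admissible end points -/
structure Data (Y : Type*) where
  G : Subgroup (Perm S)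
  Θ : Perm S → Perm (S ⊕ Y)
  map_mul : ∀ f ∈ G, ∀ g ∈ G, Θ (f * g) = Θ f * Θ g
  near : ∀ f ∈ G, {x | Θ f x ≠ ext Y f x}.Finite
  congr : ∀ f ∈ G, ∀ g ∈ G, {x | f x ≠ g x}.Finite → Θ f = Θ g
  α : ℝ
  hα : Irrational α
  hrot : rot (α : S) ∈ G
  hrefl : refl ∈ G
  hflip : ∀ l : ℝ, 0 < l → l < 1 → (∃ i : ℤ, (l : S) = i • (α : S)) → flip l ∈ G

namespace Data

variable {Y : Type*} (D : Data Y)

/-- the point `α` -/
noncomputable def a : S := (D.α : S)

/-- admissible length with index -/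
def Adm (l : ℝ) (i : ℤ) : Prop := 0 < l ∧ l < 1 ∧ (l : S) = i • D.a

theorem zsmul_inj {n m : ℤ} (h : n • D.a = m • D.a) : n = m := by
  by_contra hne
  have h1 : (((n - m : ℤ) * D.α : ℝ) : S) = 0 := by
    have h2 : (n - m) • D.a = 0 := by rw [sub_smul, h, sub_self]
    rw [← h2, a]
    rw [← zsmul_eq_mul]
    exact AddCircle.coe_zsmul ..
  rw [AddCircle.coe_eq_zero_iff] at h1
  obtain ⟨k, hk⟩ := h1
  have h3 : ((n - m : ℤ) : ℝ) ≠ 0 := by
    exact_mod_cast sub_ne_zero.2 hne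
  have h4 : D.α = ((k / (n - m : ℤ) : ℚ) : ℝ) := by
    push_cast
    push_cast at h3
    rw [eq_div_iff h3]
    have : (k : ℝ) = ((n : ℝ) - m) * D.α := by simpa using hk
    rw [this]
    ring
  exact D.hα ⟨_, h4.symm⟩

theorem map_one : D.Θ 1 = 1 := by
  have h := D.map_mul 1 D.G.one_mem 1 D.G.one_mem
  rw [one_mul] at h
  exact left_eq_mul.1 h

theorem map_inv {f : Perm S} (hf : f ∈ D.G) : D.Θ f⁻¹ = (D.Θ f)⁻¹ := by
  rw [eq_inv_iff_mul_eq_one, ← D.map_mul _ (D.G.inv_mem hf) _ hf, inv_mul_cancel, D.map_one]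

/-- the lift of the rotation -/
noncomputable def T : Perm (S ⊕ Y) := D.Θ (rot D.a)

theorem rot_zpow (b : S) (n : ℤ) : rot b ^ n = rot (n • b) := by
  have hnat : ∀ n : ℕ, rot b ^ n = rot (n • b) := by
    intro n
    induction n with
    | zero => ext x; simp
    | succ n ih => rw [pow_succ, ih, rot_mul, succ_nsmul]
  obtain ⟨m, rfl | rfl⟩ := n.eq_nat_or_neg
  · rw [zpow_natCast, hnat, natCast_zsmul]
  · rw [zpow_neg, zpow_natCast, hnat, rot_inv, neg_smul, natCast_zsmul]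

theorem rot_mem (n : ℤ) : rot (n • D.a) ∈ D.G := by
  rw [← rot_zpow]
  exact D.G.zpow_mem D.hrot n

theorem T_zpow (n : ℤ) : D.T ^ n = D.Θ (rot (n • D.a)) := by
  have hnat : ∀ n : ℕ, D.T ^ n = D.Θ (rot ((n : ℤ) • D.a)) := by
    intro n
    induction n with
    | zero =>
      have : rot (((0 : ℕ) : ℤ) • D.a) = 1 := by ext x; simp
      rw [this, D.map_one, pow_zero]
    | succ n ih =>
      have h := D.map_mul _ (D.rot_mem n) (rot D.a) D.hrot
      have h2 : ((n : ℤ) • D.a + D.a) = ((n + 1 : ℕ) : ℤ) • D.a := by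
        push_cast
        rw [add_smul, one_smul]
      rw [pow_succ, ih, T, ← h, rot_mul, h2]
  obtain ⟨m, rfl | rfl⟩ := n.eq_nat_or_neg
  · rw [zpow_natCast, hnat]
  · rw [zpow_neg, zpow_natCast, hnat, ← D.map_inv (D.rot_mem _), rot_inv, neg_smul]

theorem T_add (m n : ℤ) (v : S ⊕ Y) : (D.T ^ (m + n)) v = (D.T ^ m) ((D.T ^ n) v) := by
  rw [zpow_add, Perm.mul_apply]

/-- the lift of the reflection -/
noncomputable def R : Perm (S ⊕ Y) := D.Θ refl

/-- the lifts of the flips -/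
noncomputable def F (l : ℝ) : Perm (S ⊕ Y) := D.Θ (flip l)

theorem flip_mem {l : ℝ} {i : ℤ} (h : D.Adm l i) : flip l ∈ D.G :=
  D.hflip l h.1 h.2.1 ⟨i, h.2.2⟩

theorem F_F {l : ℝ} {i : ℤ} (h : D.Adm l i) (x : S ⊕ Y) : D.F l (D.F l x) = x := by
  rw [← Perm.mul_apply, F, ← D.map_mul _ (D.flip_mem h) _ (D.flip_mem h), flip_mul_self, D.map_one,
    Perm.one_apply]

theorem refl_mul_refl : refl * refl = 1 := by
  ext x
  simp

theorem R_R (x : S ⊕ Y) : D.R (D.R x) = x := by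
  rw [← Perm.mul_apply, R, ← D.map_mul _ D.hrefl _ D.hrefl, refl_mul_refl, D.map_one,
    Perm.one_apply]

theorem R_T (n : ℤ) (x : S ⊕ Y) : D.R ((D.T ^ n) x) = (D.T ^ (-n)) (D.R x) := by
  rw [T_zpow, T_zpow, R, ← Perm.mul_apply, ← Perm.mul_apply, ← D.map_mul _ D.hrefl _ (D.rot_mem _),
    ← D.map_mul _ (D.rot_mem _) _ D.hrefl]
  congr 2
  ext x
  simp only [Perm.mul_apply, rot_apply, refl_apply, neg_smul]
  abel

/-- the orbit of `v` is forward asymptotic to the rotation orbit of `x` -/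
def Fwd (v : S ⊕ Y) (x : S) : Prop := ∃ K : ℤ, ∀ n : ℤ, K ≤ n → (D.T ^ n) v = inl (x + n • D.a)

/-- the orbit of `v` is backward asymptotic to the rotation orbit of `x` -/
def Bwd (v : S ⊕ Y) (x : S) : Prop := ∃ K : ℤ, ∀ n : ℤ, n ≤ K → (D.T ^ n) v = inl (x + n • D.a)

/-- there are infinitely many times with `T ^ n v` at `x + n a` in each arc `(0, M)` -/
def Dn (v : S ⊕ Y) (x : S) : Prop := ∀ M : ℝ, 0 < M → M ≤ 1 →
  {n : ℤ | (D.T ^ n) v = inl (x + n • D.a) ∧ 0 < cc (x + n • D.a) ∧ cc (x + n • D.a) < M}.Infinite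

theorem dn_of_fwd {v : S ⊕ Y} {x : S} (h : D.Fwd v x) : D.Dn v x := by
  obtain ⟨K, hK⟩ := h
  intro M hM hM1
  apply Set.infinite_of_not_bddAbove
  rintro ⟨B, hB⟩
  obtain ⟨n, hn, h1, h2⟩ := exists_ge_int D.hα x le_rfl hM hM1 (max K (B + 1))
  have := hB (show n ∈ _ from ⟨hK n (by omega), h1, h2⟩)
  omega

theorem dn_of_bwd {v : S ⊕ Y} {x : S} (h : D.Bwd v x) : D.Dn v x := by
  obtain ⟨K, hK⟩ := h
  intro M hM hM1
  apply Set.infinite_of_not_bddBelow
  rintro ⟨B, hB⟩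
  obtain ⟨n, hn, h1, h2⟩ := exists_le_int D.hα x le_rfl hM hM1 (min K (B - 1))
  have := hB (show n ∈ _ from ⟨hK n (by omega), h1, h2⟩)
  omega

/-- infinite orbits of `T` -/
def Inf (v : S ⊕ Y) : Prop := ∀ k : ℤ, 1 ≤ k → (D.T ^ k) v ≠ v

theorem Inf.inj {v : S ⊕ Y} (h : D.Inf v) {m n : ℤ} (hmn : (D.T ^ m) v = (D.T ^ n) v) : m = n := by
  by_contra hne
  wlog hlt : m < n generalizing m n
  · exact this hmn.symm (Ne.symm hne) (by omega)
  have h1 : (D.T ^ (n - m)) v = v := by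
    have h2 := congrArg (D.T ^ (-m)) hmn
    rw [← D.T_add, ← D.T_add] at h2
    rw [show n - m = -m + n by ring, ← h2, neg_add_cancel, zpow_zero, Perm.one_apply]
  exact h (n - m) (by omega) h1

theorem finite_T : {y | D.T y ≠ ext Y (rot D.a) y}.Finite := D.near _ D.hrot

theorem inf_fwd {v : S ⊕ Y} (h : D.Inf v) : ∃ x, D.Fwd v x := by
  have hfin : {n : ℤ | D.T ((D.T ^ n) v) ≠ ext Y (rot D.a) ((D.T ^ n) v)}.Finite :=
    D.finite_T.preimage (fun m _ n _ hmn => Inf.inj D h hmn)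
  obtain ⟨B, hB⟩ := hfin.bddAbove
  have hstep : ∀ n : ℤ, B < n → (D.T ^ (n + 1)) v = ext Y (rot D.a) ((D.T ^ n) v) := by
    intro n hn
    by_contra hcon
    have : n ≤ B := hB (by
      show D.T ((D.T ^ n) v) ≠ _
      rw [← Perm.mul_apply, ← zpow_one_add, add_comm 1 n]
      exact hcon)
    omega
  rcases hz : (D.T ^ (B + 1)) v with z | y
  · refine ⟨z - (B + 1) • D.a, B + 1, ?_⟩
    intro n hn
    obtain ⟨k, rfl⟩ : ∃ k : ℕ, n = B + 1 + k := ⟨(n - (B + 1)).toNat, by omega⟩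
    clear hn
    induction k with
    | zero => simp [hz]
    | succ k ih =>
      have h1 := hstep (B + 1 + k) (by omega)
      rw [ih, ext_inl, rot_apply] at h1
      have h2 : B + 1 + ((k + 1 : ℕ) : ℤ) = B + 1 + k + 1 := by push_cast; ring
      rw [h2, h1, add_smul (B + 1 + (k : ℤ)) 1 D.a, one_smul, add_assoc]
  · exfalso
    have h1 := hstep (B + 1) (by omega)
    rw [hz, ext_inr, ← hz] at h1
    have := Inf.inj D h h1
    omega

theorem inf_bwd {v : S ⊕ Y} (h : D.Inf v) : ∃ x, D.Bwd v x := by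
  have hfin : {n : ℤ | D.T ((D.T ^ n) v) ≠ ext Y (rot D.a) ((D.T ^ n) v)}.Finite :=
    D.finite_T.preimage (fun m _ n _ hmn => Inf.inj D h hmn)
  obtain ⟨B, hB⟩ := hfin.bddBelow
  have hstep : ∀ n : ℤ, n < B → (D.T ^ (n + 1)) v = ext Y (rot D.a) ((D.T ^ n) v) := by
    intro n hn
    by_contra hcon
    have : B ≤ n := hB (by
      show D.T ((D.T ^ n) v) ≠ _
      rw [← Perm.mul_apply, ← zpow_one_add, add_comm 1 n]
      exact hcon)
    omega
  rcases hz : (D.T ^ (B - 1)) v with z | y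
  · refine ⟨z - (B - 1) • D.a, B - 1, ?_⟩
    intro n hn
    obtain ⟨k, rfl⟩ : ∃ k : ℕ, n = B - 1 - k := ⟨((B - 1) - n).toNat, by omega⟩
    clear hn
    induction k with
    | zero => simp [hz]
    | succ k ih =>
      have h1 := hstep (B - 1 - k - 1) (by omega)
      rw [show B - 1 - (k : ℤ) - 1 + 1 = B - 1 - k by ring, ih] at h1
      rw [show B - 1 - ((k + 1 : ℕ) : ℤ) = B - 1 - k - 1 by push_cast; ring]
      rcases hu : (D.T ^ (B - 1 - (k : ℤ) - 1)) v with u | y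
      · rw [hu, ext_inl, rot_apply] at h1
        have h2 := inl_injective h1
        congr 1
        rw [eq_comm, ← sub_eq_iff_eq_add] at h2
        rw [← h2, sub_smul (B - 1 - (k : ℤ)) 1 D.a, one_smul]
        abel
      · rw [hu, ext_inr] at h1
        exact absurd h1 (by simp)
  · exfalso
    have h1 := hstep (B - 2) (by omega)
    rw [show B - 2 + 1 = B - 1 by ring, hz] at h1
    rcases hu : (D.T ^ (B - 2)) v with u | y'
    · rw [hu, ext_inl] at h1
      exact absurd h1 (by simp)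
    · rw [hu, ext_inr, ← hu, ← hz] at h1
      have := Inf.inj D h h1
      omega

theorem fwd_inf {v : S ⊕ Y} {x : S} (h : D.Fwd v x) : D.Inf v := by
  obtain ⟨K, hK⟩ := h
  intro k hk hv
  have h1 := hK K le_rfl
  have h2 := hK (K + k) (by omega)
  rw [D.T_add, hv, h1] at h2
  have h3 := inl_injective h2
  have h4 := D.zsmul_inj (add_left_cancel h3)
  omega

/-- every rotation orbit is the forward end of an orbit -/
theorem exists_fwd (x : S) : ∃ v, D.Fwd v x := by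
  have hfin : {n : ℤ | D.T (inl (x + n • D.a)) ≠ inl (x + n • D.a + D.a)}.Finite := by
    refine D.finite_T.preimage (f := fun n : ℤ => (inl (x + n • D.a) : S ⊕ Y)) ?_
    intro m _ n _ hmn
    exact D.zsmul_inj (add_left_cancel (inl_injective hmn))
  obtain ⟨B, hB⟩ := hfin.bddAbove
  refine ⟨(D.T ^ (-(B + 1))) (inl (x + (B + 1) • D.a)), B + 1, ?_⟩
  intro n hn
  obtain ⟨k, rfl⟩ : ∃ k : ℕ, n = B + 1 + k := ⟨(n - (B + 1)).toNat, by omega⟩
  clear hn
  rw [← D.T_add, show B + 1 + (k : ℤ) + -(B + 1) = k by ring]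
  induction k with
  | zero => simp
  | succ k ih =>
    have h1 : D.T (inl (x + (B + 1 + k) • D.a)) = inl (x + (B + 1 + k) • D.a + D.a) := by
      by_contra hcon
      have := hB (show B + 1 + (k : ℤ) ∈ _ from hcon)
      omega
    rw [show ((k + 1 : ℕ) : ℤ) = 1 + k by push_cast; ring, D.T_add, ih, zpow_one, h1]
    congr 1
    rw [show B + 1 + (1 + (k : ℤ)) = B + 1 + k + 1 by ring, add_smul (B + 1 + (k : ℤ)) 1 D.a,
      one_smul, add_assoc]

end Data

end Pool.Agent.N230.FL
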